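import Pool.Agent.Work.MP_602313_nt.Main
import Pool.Agent.Work.MP_602313_nt.Prob

/-!
MP_602313_nt: Gouvêa's conjecture on the distribution of the slopes of `p`-oldforms.

For every prime `p` and every `N ≥ 1` prime to `p`, the measures `μ_k` (normalised slopes of the
`p`-oldforms of weight `k` and level `Gamma0(N p)`) converge weakly to `ν_p` as `k → ∞`
(`k` running through the weights with `S_k(Gamma0(N)) ≠ 0`).

Definitions (in `Pool/Agent/Work/MP_602313_nt/Defs.lean` and `FinalDefs.lean`):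
* `Gou.SN N k`: Mathlib's space of cusp forms of weight `k` for `Gamma0 N`;
* `Gou.IsHecke N k l T`: `T` is the linear map
  `(T f)(z) = l^(k-1) f(l z) + l^(-1) sum_{j < l} f((z + j) / l)`;
* `Gou.heckeOp`, `Gou.heckeEigs`: the Hecke operator and the multiset of its eigenvalues (roots of
  the characteristic polynomial);
* `Gou.oldSlopes p N k ι`: the valuations `v(x) = -log_p |x|` of the roots of
  `x^2 - ι(a) x + p^(k-1)`, for all eigenvalues `a` of `T_p` on `S_k(Gamma0 N)`;
* `Gou.muK`, `Gou.nuP`: the measures `μ_k` and `ν_p`.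

The complex eigenvalues are moved to the algebraic closure of `ℚ_p` by an arbitrary field
isomorphism `ι`; the result holds for every `ι`.
-/

open scoped MatrixGroups ModularForm UpperHalfPlane Polynomial ENNReal
open CongruenceSubgroup UpperHalfPlane MeasureTheory Filter

noncomputable section

namespace Pool.Agent.Results.MP_602313_nt.GouveaSlopes

open Gou

/-- **Gouvêa's conjecture**, for every prime `p` and every level `N ≥ 1` prime to `p`.

The first part records that all the objects are what their names say: `S_k(Gamma0 N)` is finite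
dimensional, the Hecke operator `T_p` exists and is unique, isomorphisms `ι` exist, `ν_p` and the
`μ_k` are probability measures, and the slopes of weight `k` lie in `[0, k-1]` for all large `k`.
The last part is the weak convergence of `μ_k` to `ν_p`. -/
theorem result (p N : ℕ) [Fact p.Prime] (hN : 1 ≤ N) (hp : N.Coprime p) :
    (∀ k : ℤ, Module.Finite ℂ (SN N k)) ∧
    (∀ k : ℤ, (∃! T : SN N k →ₗ[ℂ] SN N k, IsHecke N k p T) ∧ IsHecke N k p (heckeOp N k p)) ∧
    Nonempty (ℂ ≃+* PadicAlgCl p) ∧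
    IsProbabilityMeasure (nuP p) ∧
    (∀ᶠ k : ℕ in atTop, Even k → 0 < Module.finrank ℂ (SN N k)) ∧
    (∀ k : ℕ, ¬ Even k → Module.finrank ℂ (SN N k) = 0) ∧
    (∀ᶠ k : ℕ in atTop, ∀ (ι : ℂ ≃+* PadicAlgCl p), ∀ s ∈ oldSlopes p N k ι,
      0 ≤ s ∧ s ≤ (k : ℝ) - 1) ∧
    (∀ (ι : ℂ ≃+* PadicAlgCl p) (k : ℕ), 0 < Module.finrank ℂ (SN N k) →
      IsProbabilityMeasure (muK p N k ι)) ∧
    ∀ (ι : ℂ ≃+* PadicAlgCl p) (g : ℝ → ℝ), Continuous g →
      Tendsto (fun k : ℕ => ∫ x, g x ∂(muK p N k ι))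
        (atTop ⊓ 𝓟 {k : ℕ | 0 < Module.finrank ℂ (SN N k)}) (nhds (∫ x, g x ∂(nuP p))) := by
  have hpp : p.Prime := Fact.out
  have hN0 : N ≠ 0 := by omega
  have hpN : ¬ p ∣ N := fun h => hpp.one_lt.ne' (Nat.dvd_one.mp (hp ▸ Nat.dvd_gcd h dvd_rfl))
  refine ⟨c1_finDim hN0, fun k => m_heckeOp (c1_heckeExists hN0) k hpp hpN, e0Iso p,
    m_nuP_prob p hpp.two_le, ?_, e8 N,
    m_slopes_mem hpN (c1_finDim hN0) (c1_heckeExists hN0) (m_coord hN0 hpN) m_d17 d20Two m_e6a
      e0NA (e8 N),
    fun ι k hk => m_muK_prob p N k ι (c1_finDim hN0) hk, m_conclusion hN0 hpN⟩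
  obtain ⟨C, hC⟩ := c2Dim N hN0 (c1_finDim hN0)
  have : NeZero N := ⟨hN0⟩
  have hidx : 1 ≤ (Gamma0 N).index := Nat.pos_of_ne_zero Subgroup.FiniteIndex.index_ne_zero
  filter_upwards [eventually_gt_atTop C] with k hk hev
  have h1 := hC k hev
  have h2 : k ≤ (Gamma0 N).index * k := Nat.le_mul_of_pos_left k hidx
  omega

end Pool.Agent.Results.MP_602313_nt.GouveaSlopes
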